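import Pool.Agent.Helper50.FW.NB

/-!
# Packet W7 of MP_ac806c_lc
-/

set_option autoImplicit false
set_option linter.unusedSectionVars false

namespace Pool.Agent.Helper50.FW

open Pool.Agent.Helper30.Full Polynomial

universe u

noncomputable section

variable {p : ℕ} [Fact p.Prime] {d : ℕ} {X : Type u} [AddCommGroup X] [TopologicalSpace X]
  [IsTopologicalAddGroup X] [CompactSpace X] [T2Space X] (b : Act p d X)

/-- the data of the construction -/
structure Ctx (s m w B ρ1 : ℕ) (l : Fin d → ℤ_[p]) (i0 : Fin d) : Prop where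
  hyp : HypW2 b s
  dw : DomW b s m
  hi0 : (i0 : ℕ) = 0
  q : ∀ k, (∀ x, ∃ y, b.T k x = b.T (p ^ B • e0 p d) y) →
    (∀ i : Fin d, 1 ≤ (i : ℕ) → (i : ℕ) < s → (p : ℤ_[p]) ^ (B + (max ρ1 (w + m + 1) + 1)) ∣ k i) ∧
    ∀ i : Fin d, s ≤ (i : ℕ) → (p : ℤ_[p]) ^ (max ρ1 (w + m + 1) + 1) ∣ k i
  lw : ∀ β, B ≤ β → β ≤ B + w →
    (∃ x, ∀ y z, p ^ (w + 4) • x ≠ b.T l y + Psi b (e0 p d) β z) ∧
    ∀ r : Fin d → ℤ_[p], (∀ i : Fin d, (i : ℕ) = 0 → r i = 0) →
      (∀ i : Fin d, 1 ≤ (i : ℕ) → (i : ℕ) < s → (p : ℤ_[p]) ^ (B + ρ1) ∣ r i) →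
      (∀ i : Fin d, s ≤ (i : ℕ) → (p : ℤ_[p]) ^ ρ1 ∣ r i) →
      ∀ x, ∃ y z, b.T r x = b.T l y + Psi b (e0 p d) β z

section ctx

variable {b} {s m w B ρ1 : ℕ} {l : Fin d → ℤ_[p]} {i0 : Fin d} (C : Ctx b s m w B ρ1 l i0)

include C in
/-- the rest of an element -/
lemma rest (k : Fin d → ℤ_[p]) (hk : ∀ x, ∃ y, b.T k x = b.T (p ^ B • e0 p d) y) :
    ∃ r r' : Fin d → ℤ_[p], k = k i0 • e0 p d + r ∧ r = p • r' ∧
      ImP p (b.T r) (b.T (e0 p d) ^ p ^ (B + w + 1)) ∧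
      ∀ β, B ≤ β → β ≤ B + w → ∀ x, b.T r' x ∈ NN b l (e0 p d) β := by
  classical
  obtain ⟨hq1, hq2⟩ := C.q k hk
  have hex : ∀ i : Fin d, ∃ c : ℤ_[p], ((i : ℕ) = 0 → c = 0) ∧ ((i : ℕ) ≠ 0 → k i = (p : ℤ_[p]) * c) ∧
      (1 ≤ (i : ℕ) → (i : ℕ) < s → (p : ℤ_[p]) ^ (B + max ρ1 (w + m + 1)) ∣ c) ∧
      (s ≤ (i : ℕ) → (p : ℤ_[p]) ^ (max ρ1 (w + m + 1)) ∣ c) := by
    intro i
    have hs := C.hyp.s_pos
    by_cases hi0 : (i : ℕ) = 0
    · exact ⟨0, fun _ => rfl, fun h => absurd hi0 h, fun h => by omega, fun h => by omega⟩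
    · by_cases his : (i : ℕ) < s
      · obtain ⟨c, hc⟩ := hq1 i (by omega) his
        refine ⟨(p : ℤ_[p]) ^ (B + max ρ1 (w + m + 1)) * c, fun h => absurd h hi0, fun _ => ?_,
          fun _ _ => Dvd.intro _ rfl, fun h => by omega⟩
        rw [hc, ← add_assoc, pow_succ]; ring
      · obtain ⟨c, hc⟩ := hq2 i (by omega)
        refine ⟨(p : ℤ_[p]) ^ (max ρ1 (w + m + 1)) * c, fun h => absurd h hi0, fun _ => ?_,
          fun _ h => absurd h his, fun _ => Dvd.intro _ rfl⟩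
        rw [hc, pow_succ]; ring
  choose r' h1 h2 h3 h4 using hex
  have hk' : k = k i0 • e0 p d + p • r' := by
    funext i
    rw [← Nat.cast_smul_eq_nsmul ℤ_[p]]
    show k i = k i0 * e0 p d i + (p : ℤ_[p]) * r' i
    by_cases hi : (i : ℕ) = 0
    · have : i = i0 := Fin.ext (by rw [hi, C.hi0])
      rw [e0_zero hi, h1 i hi, this]; ring
    · have he : e0 p d i = 0 := by unfold e0; rw [if_neg hi]
      rw [he, h2 i hi]; ring
  refine ⟨p • r', r', hk', rfl, ?_, ?_⟩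
  · refine rest_imP b C.hyp C.dw (p • r') (fun i hi => ?_) (fun i hi1 his => ?_)
    · show p • r' i = 0
      rw [h1 i hi, smul_zero]
    · show _ ∣ p • r' i
      rw [nsmul_eq_mul]
      refine Dvd.dvd.trans ?_ (mul_dvd_mul_left _ (h3 i hi1 his))
      rw [← pow_succ']
      refine pow_dvd_pow _ ?_
      have := le_max_right ρ1 (w + m + 1)
      omega
  · intro β hβ1 hβ2 x
    obtain ⟨y, z, h⟩ := (C.lw β hβ1 hβ2).2 r' h1
      (fun i hi1 his => (pow_dvd_pow _ (by have := le_max_left ρ1 (w + m + 1); omega)).trans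
        (h3 i hi1 his))
      (fun i his => (pow_dvd_pow _ (le_max_left _ _)).trans (h4 i his)) x
    exact mem_Sum2.2 ⟨y, z, h⟩

include C in
/-- the level of an element of the clock -/
lemma level (k : Fin d → ℤ_[p]) (hk : Le0 b (p ^ B • e0 p d) k)
    (hk1 : Le1 b k (p ^ (B + w) • e0 p d)) :
    k i0 ≠ 0 ∧ B ≤ (k i0).valuation ∧ (k i0).valuation ≤ B + w ∧
      ImP p (b.T k) (b.T (e0 p d) ^ p ^ (k i0).valuation) ∧
      ImP p (b.T (e0 p d) ^ p ^ (k i0).valuation) (b.T k) := by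
  have hns := not_small_e0 b C.hyp
  have hp1 := (Fact.out : p.Prime).one_lt
  obtain ⟨r, r', hkr, hr, hrJ, -⟩ := rest C k hk
  have hup : ImP p (b.T (e0 p d) ^ p ^ (B + w)) (b.T k) :=
    (imp_ppow' b _ _).trans hk1
  have hnd : ¬ (p : ℤ_[p]) ^ (B + w + 1) ∣ k i0 := by
    intro hdv
    have h1 := div_imP b (e0 p d) r (k i0) hdv hrJ
    rw [← hkr] at h1
    have h2 := imP_lt b hns (hup.trans h1)
    have h3 : p ^ (B + w) < p ^ (B + w + 1) := Nat.pow_lt_pow_right hp1 (by omega)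
    omega
  have hne : k i0 ≠ 0 := by
    intro h
    rw [h] at hnd
    exact hnd (dvd_zero _)
  have hv : (k i0).valuation < B + w + 1 := by
    by_contra hlt
    apply hnd
    obtain ⟨ε, hε⟩ := unit_dec hne
    rw [hε]
    exact Dvd.dvd.mul_left (pow_dvd_pow _ (not_lt.1 hlt)) _
  obtain ⟨h1, h2⟩ := lev_imP b (e0 p d) r (k i0) hne hv hrJ
  rw [← hkr] at h1 h2
  refine ⟨hne, ?_, by omega, h1, h2⟩
  have h3 : ImP p (b.T (e0 p d) ^ p ^ (k i0).valuation) (b.T (e0 p d) ^ p ^ B) :=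
    (h2.trans (ImP.of_im hk)).trans (imp_ppow b _ _)
  have h4 := imP_lt b hns h3
  exact (Nat.pow_le_pow_iff_right hp1).1 h4

include C in
lemma bf_iff (h k : Fin d → ℤ_[p])
    (hh : Le0 b (p ^ B • e0 p d) h) (hh1 : Le1 b h (p ^ (B + w) • e0 p d))
    (hk : Le0 b (p ^ B • e0 p d) k) (hk1 : Le1 b k (p ^ (B + w) • e0 p d)) :
    Bf b 1 h k ↔ (h i0).valuation < (k i0).valuation := by
  have hns := not_small_e0 b C.hyp
  have hp1 := (Fact.out : p.Prime).one_lt
  obtain ⟨-, -, -, h1, h2⟩ := level C h hh hh1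
  obtain ⟨-, -, -, h3, h4⟩ := level C k hk hk1
  have e1 : ImP p (b.T (p ^ 1 • h)) (b.T (e0 p d) ^ p ^ ((h i0).valuation + 1)) := by
    have := (imp_ppow b 1 h).trans (h1.pow ((T_comm b _ _).pow_right _) (p ^ 1))
    rwa [← pow_mul, ← pow_add] at this
  have e2 : ImP p (b.T (e0 p d) ^ p ^ ((h i0).valuation + 1)) (b.T (p ^ 1 • h)) := by
    have := (h2.pow ((T_comm b _ _).pow_left _) (p ^ 1)).trans (imp_ppow' b 1 h)
    rwa [← pow_mul, ← pow_add] at this
  constructor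
  · intro hB
    have h5 : ImP p (b.T k) (b.T (p ^ 1 • h)) := hB
    have h6 := imP_lt b hns ((h4.trans h5).trans e1)
    exact (Nat.pow_le_pow_iff_right hp1).1 h6
  · intro hlt
    have h5 : ImP p (b.T k) (b.T (p ^ 1 • h)) :=
      (h3.trans (ImP.pow_le _ (Nat.pow_le_pow_right hp1.le hlt))).trans e2
    exact h5

end ctx

theorem pf_StmtW7 : StmtW7.{u} := by
  classical
  intro p _ d X _ _ _ _ _ b s H m hD hQ hL
  have hp := (Fact.out : p.Prime)
  have hp1 := hp.one_lt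
  have hns := not_small_e0 b H
  refine ⟨1, le_rfl, fun w => ?_⟩
  obtain ⟨ρ1, B1, hL1⟩ := hL w
  obtain ⟨B0, hQ0⟩ := hQ (max ρ1 (w + m + 1) + 1)
  obtain ⟨l, hl⟩ := hL1 (max B0 B1) (le_max_right _ _)
  have hq := hQ0 (max B0 B1) (le_max_left _ _)
  set B := max B0 B1 with hBdef
  have hd0 : 0 < d := lt_of_lt_of_le H.s_pos H.s_le
  let i0 : Fin d := ⟨0, hd0⟩
  have C : Ctx b s m w B ρ1 l i0 := ⟨H, hD, rfl, hq, hl⟩
  set g := e0 p d with hg
  -- the elements `b_β`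
  have hbb : ∀ β, ∃ x : X, B ≤ β → β ≤ B + w → p ^ (w + 4) • x ∉ NN b l g β := by
    intro β
    by_cases hβ : B ≤ β ∧ β ≤ B + w
    · obtain ⟨x, hx⟩ := (hl β hβ.1 hβ.2).1
      refine ⟨x, fun _ _ hmem => ?_⟩
      obtain ⟨y, z, h⟩ := mem_Sum2.1 hmem
      exact hx y z h
    · exact ⟨0, fun h1 h2 => absurd ⟨h1, h2⟩ hβ⟩
  choose bb hbb using hbb
  have hbb' : ∀ β, B ≤ β → β ≤ B + w → ∀ j ≤ w + 4, p ^ j • bb β ∉ NN b l g β := by
    intro β h1 h2 j hj hmem
    apply hbb β h1 h2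
    have : p ^ (w + 4) • bb β = p ^ (w + 4 - j) • p ^ j • bb β := by
      rw [smul_smul, ← pow_add, Nat.sub_add_cancel hj]
    rw [this]
    exact nsmul_mem hmem _
  obtain ⟨μ, hμ⟩ := crt b l g B w
  set y : X := ∑ β ∈ Finset.Icc B (B + w), (aeval (b.σ g) (μ β)) (bb β) with hy
  set ν : (Fin d → ℤ_[p]) → ℕ := fun k => (k i0).valuation - B with hν
  have hval : ∀ n : ℕ, ((p ^ n • g) i0 : ℤ_[p]) = (p : ℤ_[p]) ^ n := by
    intro n
    rw [cast_smul]
    show (p : ℤ_[p]) ^ n * g i0 = _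
    rw [hg, e0_zero rfl, mul_one]
  have hvaln : ∀ n : ℕ, ((p ^ n • g) i0 : ℤ_[p]).valuation = n := by
    intro n
    rw [hval, PadicInt.valuation_pow, PadicInt.valuation_p, mul_one]
  -- the clock
  have hpow : ∀ n : ℕ, B ≤ n → n ≤ B + w → II b (p ^ B • g) (p ^ (B + w) • g) l y (p ^ n • g) := by
    intro n hn1 hn2
    have hA : Le0 b (p ^ B • g) (p ^ n • g) := by
      intro x
      have : p ^ n • g = ((p : ℤ_[p]) ^ (n - B)) • (p ^ B : ℕ) • g := by
        rw [cast_smul, cast_smul, smul_smul, ← pow_add, Nat.sub_add_cancel hn1]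
      rw [this]
      exact im_smul b _ _ x
    have hA1 : Le1 b (p ^ n • g) (p ^ (B + w) • g) := by
      intro x
      have : p ^ (B + w) • g = ((p : ℤ_[p]) ^ (B + w - n)) • (p ^ n : ℕ) • g := by
        rw [cast_smul, cast_smul, smul_smul, ← pow_add, Nat.sub_add_cancel hn2]
      obtain ⟨z, hz⟩ := im_smul b ((p : ℤ_[p]) ^ (B + w - n)) ((p ^ n : ℕ) • g) x
      exact ⟨z, 0, by rw [this, hz, smul_zero, add_zero]⟩
    refine ⟨hA, hA1, ?_, ?_⟩
    · intro hS
      apply hns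
      refine ⟨0, p ^ n, fun x => ?_⟩
      obtain ⟨y1, z1, h1⟩ := imp_ppow' b n g x
      obtain ⟨z2, h2⟩ := hS y1
      refine ⟨z2 + z1, ?_⟩
      rw [pow_zero, one_smul, zero_add, pow_one, h1, h2, smul_add]
    · intro hDD
      obtain ⟨r, r', hkr, hr, -, hrN⟩ := rest C (p ^ n • g) hA
      rw [hkr, ← hg] at hDD
      have hne : (p ^ n • g) i0 ≠ 0 := by
        rw [hval]; exact pow_ne_zero _ (by exact_mod_cast hp.ne_zero)
      have h1 := mem_of_DD b l g n _ hne (hvaln n) r r' hr (hrN n hn1 hn2) y hDD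
      have h2 := nsmul_mem (hμ bb n hn1 hn2) p
      rw [smul_sub, ← hy] at h2
      have h3 := sub_mem h1 h2
      rw [sub_sub_cancel, smul_smul, ← pow_succ'] at h3
      exact hbb' n hn1 hn2 (w + 1) (by omega) h3
  refine ⟨p ^ B • g, p ^ (B + w) • g, l, y, y, ν, ?_, ?_, ?_, ?_⟩
  · intro k hk
    obtain ⟨-, h1, h2, -, -⟩ := level C k hk.1 hk.2.1
    simp only [hν]
    omega
  · intro n hn
    refine ⟨p ^ (B + n) • g, hpow _ (by omega) (by omega), ?_⟩
    simp only [hν]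
    rw [hvaln]
    omega
  · intro h k hh hk
    rw [bf_iff C h k hh.1 hh.2.1 hk.1 hk.2.1]
    obtain ⟨-, h1, h2, -, -⟩ := level C k hk.1 hk.2.1
    obtain ⟨-, h3, h4, -, -⟩ := level C h hh.1 hh.2.1
    simp only [hν]
    omega
  · intro c hc
    set xc : X := ∑ β ∈ Finset.Icc B (B + w), (aeval (b.σ g) (μ β))
      (b.σ (p ^ (B + c (β - B)) • g) (bb β)) with hxc
    refine ⟨xc, fun k h hk hh hk1 => ?_⟩
    -- the main congruence
    have hmain : ∀ (β : ℕ), B ≤ β → β ≤ B + w → ∀ h' : Fin d → ℤ_[p],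
        (xc - b.σ h' y) - (p ^ w • b.σ (p ^ (B + c (β - B)) • g) (bb β) - p ^ w • b.σ h' (bb β)) ∈
          NN b l g β := by
      intro β h1 h2 h'
      have e1 := hμ (fun β => b.σ (p ^ (B + c (β - B)) • g) (bb β)) β h1 h2
      have e2 := inv_NN b l g β h' _ (hμ bb β h1 h2)
      rw [map_sub, map_nsmul, ← hy] at e2
      have e3 := sub_mem e1 e2
      have e4 : (xc - b.σ h' y) - (p ^ w • b.σ (p ^ (B + c (β - B)) • g) (bb β) -
          p ^ w • b.σ h' (bb β)) =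
          (xc - p ^ w • b.σ (p ^ (B + c (β - B)) • g) (bb β)) -
          (b.σ h' y - p ^ w • b.σ h' (bb β)) := by abel
      rw [e4]
      exact e3
    obtain ⟨hkne, hkB, hkw, -, -⟩ := level C k hk.1 hk.2.1
    obtain ⟨hhne, hhB, hhw, -, -⟩ := level C h hh.1 hh.2.1
    have hνk : B + ν k = (k i0).valuation := by simp only [hν]; omega
    have hνh : B + ν h = (h i0).valuation := by simp only [hν]; omega
    have hcw : c (ν k) < ν k := hc (ν k) hk1 (by simp only [hν]; omega)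
    -- equivalence of times
    have heq : ∀ f f', II b (p ^ B • g) (p ^ (B + w) • g) l y f →
        II b (p ^ B • g) (p ^ (B + w) • g) l y f' →
        ((¬ Bf b 1 f f' ∧ ¬ Bf b 1 f' f) ↔ (f i0).valuation = (f' i0).valuation) := by
      intro f f' hf hf'
      rw [bf_iff C f f' hf.1 hf.2.1 hf'.1 hf'.2.1, bf_iff C f' f hf'.1 hf'.2.1 hf.1 hf.2.1]
      omega
    constructor
    · intro hR
      obtain ⟨h', hh', hb1, hb2, hDD⟩ := hR k hk ((heq k k hk hk).2 rfl).1 ((heq k k hk hk).2 rfl).1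
      have hvh' : (h i0).valuation = (h' i0).valuation := (heq h h' hh hh').1 ⟨hb1, hb2⟩
      by_contra hne
      obtain ⟨r, r', hkr, hr, -, hrN⟩ := rest C k hk.1
      obtain ⟨q, q', hhq, hqq, -, hqN⟩ := rest C h' hh'.1
      obtain ⟨hh'ne, -, -, -, -⟩ := level C h' hh'.1 hh'.2.1
      rw [hkr, ← hg] at hDD
      set β := (k i0).valuation with hβ
      have h1 := mem_of_DD b l g β _ hkne rfl r r' hr (hrN β hkB hkw) _ hDD
      have h2 := nsmul_mem (hmain β hkB hkw h') p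
      rw [smul_sub] at h2
      have h3 := sub_mem h1 h2
      rw [sub_sub_cancel, ← smul_sub, smul_smul, ← pow_succ'] at h3
      have hβB : β - B = ν k := rfl
      rw [hβB] at h3
      set γ' := B + c (ν k) with hγ'
      set z := p ^ (w + 1) • bb β with hz
      -- `σ(h')` and `σ(h'_0 g)`
      have h4 : b.σ (p ^ γ' • g) z - b.σ (h' i0 • g) z ∈ NN b l g β := by
        have e1 : p ^ (w + 1) • (b.σ (p ^ γ' • g) (bb β) - b.σ h' (bb β)) =
            b.σ (p ^ γ' • g) z - b.σ h' z := by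
          rw [smul_sub, hz, map_nsmul, map_nsmul]
        rw [e1] at h3
        have e2 : b.σ h' z = b.σ (h' i0 • g) z + b.σ (h' i0 • g) (b.T q z) := by
          conv_lhs => rw [hhq]
          rw [b.add]
          have : (b.σ (h' i0 • g) * b.σ q) z = b.σ (h' i0 • g) (b.σ q z) := rfl
          rw [← hg, this, σ_apply b q z, map_add, add_comm]
        have e3 : b.T q z ∈ NN b l g β := by
          have := r_mem b l g β q q' hqq (hqN β hkB hkw) 1 z
          rwa [one_smul] at this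
        have e4 : b.σ (p ^ γ' • g) z - b.σ (h' i0 • g) z =
            (b.σ (p ^ γ' • g) z - b.σ h' z) + b.σ (h' i0 • g) (b.T q z) := by
          rw [e2]; abel
        rw [e4]
        exact add_mem h3 (inv_NN b l g β _ _ e3)
      have h5 : b.T ((h' i0 - (p : ℤ_[p]) ^ γ') • g) z ∈ NN b l g β := by
        have e1 := inv_NN b l g β (-(p ^ γ' • g)) _ (neg_mem h4)
        rw [neg_sub, map_sub, σ_neg_apply] at e1
        have e2 : b.σ (-(p ^ γ' • g)) (b.σ (h' i0 • g) z) = b.σ ((h' i0 - (p : ℤ_[p]) ^ γ') • g) z := by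
          have e3 : (h' i0 - (p : ℤ_[p]) ^ γ') • g = -(p ^ γ' • g) + h' i0 • g := by
            rw [sub_smul, cast_smul]; abel
          rw [e3, b.add]; rfl
        rw [e2] at e1
        exact e1
      have hvne : (h' i0).valuation ≠ γ' := by
        rw [← hvh', ← hνh, hγ']
        intro h6
        apply hne
        omega
      have hγβ : γ' < β := by omega
      -- the valuation of the difference
      have h6 : ∃ δ ≤ γ', ∃ ε : ℤ_[p]ˣ, h' i0 - (p : ℤ_[p]) ^ γ' = ε * (p : ℤ_[p]) ^ δ := by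
        obtain ⟨ε, hε⟩ := unit_dec hh'ne
        have hpu : ∀ c : ℤ_[p], ¬ IsUnit ((p : ℤ_[p]) * c) := by
          intro c hc
          exact (PadicInt.prime_p (p := p)).not_unit (isUnit_of_mul_isUnit_left hc)
        have hunit : ∀ (e : ℤ_[p]ˣ) (c : ℤ_[p]), IsUnit ((e : ℤ_[p]) - (p : ℤ_[p]) * c) := by
          intro e c
          by_contra hcon
          have h7 : (e : ℤ_[p]) = ((e : ℤ_[p]) - (p : ℤ_[p]) * c) + (p : ℤ_[p]) * c := by ring
          have h8 := IsLocalRing.nonunits_add (a := (e : ℤ_[p]) - (p : ℤ_[p]) * c)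
            (b := (p : ℤ_[p]) * c) hcon (hpu c)
          rw [← h7] at h8
          exact h8 e.isUnit
        rcases lt_or_gt_of_ne hvne with hlt | hgt
        · refine ⟨(h' i0).valuation, hlt.le, ?_⟩
          obtain ⟨e, he⟩ := hunit ε ((p : ℤ_[p]) ^ (γ' - (h' i0).valuation - 1))
          refine ⟨e, ?_⟩
          rw [he]
          conv_lhs => rw [hε]
          have e5 : (p : ℤ_[p]) ^ γ' = (p : ℤ_[p]) * (p : ℤ_[p]) ^ (γ' - (h' i0).valuation - 1) *
              (p : ℤ_[p]) ^ (h' i0).valuation := by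
            rw [← pow_succ', ← pow_add]
            congr 1
            omega
          rw [e5]; ring
        · refine ⟨γ', le_rfl, ?_⟩
          obtain ⟨e, he⟩ := hunit 1 (ε * (p : ℤ_[p]) ^ ((h' i0).valuation - γ' - 1))
          refine ⟨-e, ?_⟩
          rw [Units.val_neg, he]
          conv_lhs => rw [hε]
          have e5 : (p : ℤ_[p]) ^ (h' i0).valuation =
              (p : ℤ_[p]) * (p : ℤ_[p]) ^ ((h' i0).valuation - γ' - 1) * (p : ℤ_[p]) ^ γ' := by
            rw [← pow_succ', ← pow_add]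
            congr 1
            omega
          rw [e5, Units.val_one]; ring
      obtain ⟨δ, hδ, ε, hε⟩ := h6
      rw [hε] at h5
      have h7 : b.T ((p ^ β : ℕ) • g) z ∈ NN b l g β := by
        have e6 : (p ^ β : ℕ) • g = ((p : ℤ_[p]) ^ (β - δ) * ((ε⁻¹ : ℤ_[p]ˣ) : ℤ_[p])) •
            (((ε : ℤ_[p]) * (p : ℤ_[p]) ^ δ) • g) := by
          rw [cast_smul, smul_smul]
          congr 1
          have e7 : (p : ℤ_[p]) ^ (β - δ) * ((ε⁻¹ : ℤ_[p]ˣ) : ℤ_[p]) *
              ((ε : ℤ_[p]) * (p : ℤ_[p]) ^ δ) =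
              (((ε⁻¹ : ℤ_[p]ˣ) : ℤ_[p]) * (ε : ℤ_[p])) * ((p : ℤ_[p]) ^ (β - δ) * (p : ℤ_[p]) ^ δ) := by
            ring
          rw [e7, Units.inv_mul, one_mul, ← pow_add]
          congr 1
          omega
        rw [e6]
        exact smul_mem_NN b l g _ β _ z h5
      have h8 := p_mem b l g β z h7
      rw [hz, smul_smul, ← pow_succ'] at h8
      exact hbb' β hkB hkw (w + 2) (by omega) h8
    · intro hνeq k' hk' hb1 hb2
      have hvk : (k i0).valuation = (k' i0).valuation := (heq k k' hk hk').1 ⟨hb1, hb2⟩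
      have hγ : B + c (ν k) ≤ B + w := by
        rw [← hνeq, hνh]; exact hhw
      have hII := hpow (B + c (ν k)) (by omega) hγ
      have h1 : (h i0).valuation = ((p ^ (B + c (ν k)) • g) i0 : ℤ_[p]).valuation := by
        rw [hvaln, ← hνh, hνeq]
      have h2 := (heq _ _ hh hII).2 h1
      refine ⟨_, hII, h2.1, h2.2, ?_⟩
      obtain ⟨r, r', hkr, hr, -, hrN⟩ := rest C k' hk'.1
      obtain ⟨hk'ne, -, -, -, -⟩ := level C k' hk'.1 hk'.2.1
      rw [hkr, ← hg]
      refine DD_of_mem b l g (k i0).valuation _ hk'ne hvk.symm r r' hr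
        (hrN _ hkB hkw) _ ?_
      have h3 := hmain (k i0).valuation hkB hkw (p ^ (B + c (ν k)) • g)
      have hβB : (k i0).valuation - B = ν k := rfl
      rw [hβB, sub_self, sub_zero] at h3
      exact h3

end

end Pool.Agent.Helper50.FW
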