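import Pool.Agent.Helper30.Full.GoalsW
import Pool.Agent.Helper85.ProP.Poly

/-!
# Packet W7 of MP_ac806c_lc: general facts about images of endomorphisms
-/

set_option autoImplicit false
set_option linter.unusedSectionVars false

namespace Pool.Agent.Helper50.FW

open Pool.Agent.Helper30.Full Polynomial

universe u

noncomputable section

section alg

variable {p : ℕ} [Fact p.Prime] {d : ℕ} {X : Type u} [AddCommGroup X] [TopologicalSpace X]

/-- containment of images modulo `p` -/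
def ImP (p : ℕ) (A C : AddMonoid.End X) : Prop := ∀ x : X, ∃ y z, A x = C y + p • z

lemma ImP.refl (A : AddMonoid.End X) : ImP p A A := fun x => ⟨x, 0, by simp⟩

lemma ImP.of_im {A C : AddMonoid.End X} (h : ∀ x : X, ∃ y, A x = C y) : ImP p A C := fun x => by
  obtain ⟨y, hy⟩ := h x
  exact ⟨y, 0, by simp [hy]⟩

lemma ImP.trans {A C D : AddMonoid.End X} (h : ImP p A C) (h' : ImP p C D) : ImP p A D := fun x => by
  obtain ⟨y, z, hy⟩ := h x
  obtain ⟨y', z', hy'⟩ := h' y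
  exact ⟨y', z' + z, by rw [hy, hy', smul_add, add_assoc]⟩

lemma ImP.pow {A C : AddMonoid.End X} (h : ImP p A C) (hc : Commute A C) (n : ℕ) :
    ImP p (A ^ n) (C ^ n) := by
  induction n with
  | zero => rw [pow_zero, pow_zero]; exact ImP.refl _
  | succ n ih =>
    intro x
    obtain ⟨y, z, hy⟩ := ih x
    obtain ⟨y', z', hy'⟩ := h y
    refine ⟨y', (C ^ n) z' + A z, ?_⟩
    have h1 : (A ^ (n + 1)) x = A ((A ^ n) x) := by rw [pow_succ']; rfl
    have h2 : (C ^ (n + 1)) y' = (C ^ n) (C y') := by rw [pow_succ]; rfl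
    have h3 : A ((C ^ n) y) = (C ^ n) (A y) :=
      congrArg (fun f : AddMonoid.End X => f y) (hc.pow_right n)
    rw [h1, hy, map_add, map_nsmul, h3, hy', map_add, map_nsmul, h2, smul_add, add_assoc]

lemma ImP.pow_le (A : AddMonoid.End X) {a a' : ℕ} (h : a' ≤ a) : ImP p (A ^ a) (A ^ a') := by
  refine ImP.of_im fun x => ⟨(A ^ (a - a')) x, ?_⟩
  have : A ^ a = A ^ a' * A ^ (a - a') := by rw [← pow_add, Nat.add_sub_cancel' h]
  rw [this]; rfl

variable (b : Act p d X)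

lemma imp_ppow (j : ℕ) (k : Fin d → ℤ_[p]) : ImP p (b.T (p ^ j • k)) (b.T k ^ p ^ j) := by
  obtain ⟨P, hP⟩ := T_ppow b j k
  intro x
  exact ⟨x, (b.T k * aeval (b.T k) P) x, by rw [hP]; rfl⟩

lemma imp_ppow' (j : ℕ) (k : Fin d → ℤ_[p]) : ImP p (b.T k ^ p ^ j) (b.T (p ^ j • k)) := by
  obtain ⟨P, hP⟩ := T_ppow b j k
  intro x
  refine ⟨x, -(b.T k * aeval (b.T k) P) x, ?_⟩
  have : b.T (p ^ j • k) x = (b.T k ^ p ^ j) x + p • (b.T k * aeval (b.T k) P) x := by
    rw [hP]; rfl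
  rw [this, smul_neg]; abel

/-- `Σ_{i<p} k^i` -/
def Phi (k : Fin d → ℤ_[p]) : AddMonoid.End X := ∑ i ∈ Finset.range p, b.σ k ^ i

lemma Phi_apply (k : Fin d → ℤ_[p]) (x : X) :
    Phi b k x = ∑ i ∈ Finset.range p, b.σ (i • k) x := by
  unfold Phi
  have h : (∑ i ∈ Finset.range p, b.σ k ^ i : AddMonoid.End X) x =
      ∑ i ∈ Finset.range p, (b.σ k ^ i : AddMonoid.End X) x :=
    AddMonoidHom.finsetSum_apply _ _ _
  rw [h]
  exact Finset.sum_congr rfl fun i _ => by rw [σ_nsmul]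

lemma Psi_eq (g : Fin d → ℤ_[p]) (n : ℕ) : Psi b g n = Phi b (p ^ n • g) := by
  unfold Psi Phi
  refine Finset.sum_congr rfl fun i _ => ?_
  rw [mul_smul, σ_nsmul]

lemma T_Phi (k : Fin d → ℤ_[p]) : b.T k * Phi b k = b.T (p • k) := by
  unfold Phi Act.T
  rw [mul_geom_sum, σ_nsmul]

lemma Phi_comm (k l : Fin d → ℤ_[p]) : Commute (Phi b k) (b.σ l) :=
  Commute.sum_left _ _ _ fun _ _ => (σ_comm b k l).pow_left _

lemma Phi_comm_T (k l : Fin d → ℤ_[p]) : Commute (Phi b k) (b.T l) :=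
  (Phi_comm b k l).sub_right (Commute.one_right _)

lemma σ_Phi_apply (k l : Fin d → ℤ_[p]) (x : X) : b.σ l (Phi b k x) = Phi b k (b.σ l x) :=
  (congrArg (fun f : AddMonoid.End X => f x) (Phi_comm b k l)).symm

lemma T_Phi_comm_apply (k l : Fin d → ℤ_[p]) (x : X) : b.T l (Phi b k x) = Phi b k (b.T l x) :=
  (congrArg (fun f : AddMonoid.End X => f x) (Phi_comm_T b k l)).symm

lemma T_Phi_apply (k : Fin d → ℤ_[p]) (x : X) : b.T k (Phi b k x) = b.T (p • k) x :=
  congrArg (fun f : AddMonoid.End X => f x) (T_Phi b k)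

lemma smul_sub_Phi (k : Fin d → ℤ_[p]) (x : X) :
    p • x = Phi b k x - ∑ i ∈ Finset.range p, b.T (i • k) x := by
  rw [Phi_apply, ← Finset.sum_sub_distrib]
  have : ∀ i ∈ Finset.range p, b.σ (i • k) x - b.T (i • k) x = x := fun i _ => by
    rw [T_apply, sub_sub_cancel]
  rw [Finset.sum_congr rfl this, Finset.sum_const, Finset.card_range]

lemma aeval_Ps (g : Fin d → ℤ_[p]) (n : ℕ) :
    aeval (b.σ g) (Pool.Agent.Helper85.ProP.Ps p n) = Psi b g n := by
  unfold Pool.Agent.Helper85.ProP.Ps Psi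
  rw [map_sum]
  refine Finset.sum_congr rfl fun i _ => ?_
  rw [map_pow, aeval_X, σ_nsmul]

/-- `Σ` of the images of two endomorphisms -/
def Sum2 (A C : AddMonoid.End X) : AddSubgroup X :=
  AddMonoidHom.range (AddMonoidHom.coprod (A : X →+ X) (C : X →+ X))

lemma mem_Sum2 {A C : AddMonoid.End X} {x : X} : x ∈ Sum2 A C ↔ ∃ y z, x = A y + C z := by
  constructor
  · rintro ⟨⟨y, z⟩, rfl⟩
    exact ⟨y, z, rfl⟩
  · rintro ⟨y, z, rfl⟩
    exact ⟨⟨y, z⟩, rfl⟩

lemma left_mem_Sum2 (A C : AddMonoid.End X) (x : X) : A x ∈ Sum2 A C :=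
  mem_Sum2.2 ⟨x, 0, by simp⟩

lemma right_mem_Sum2 (A C : AddMonoid.End X) (x : X) : C x ∈ Sum2 A C :=
  mem_Sum2.2 ⟨0, x, by simp⟩

/-- multiplication by `p` -/
def mulp (p : ℕ) (X : Type u) [AddCommGroup X] : AddMonoid.End X :=
  { toFun := fun x => p • x
    map_zero' := smul_zero _
    map_add' := fun x y => smul_add _ _ _ }

lemma mulp_apply (x : X) : mulp p X x = p • x := rfl

end alg

section top

variable {p : ℕ} [Fact p.Prime] {d : ℕ} {X : Type u} [AddCommGroup X] [TopologicalSpace X]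
  [IsTopologicalAddGroup X] (b : Act p d X)

lemma cont_mulp : Continuous (fun x : X => mulp p X x) := by
  show Continuous fun x : X => p • x
  exact continuous_nsmul p

lemma cont_Phi (k : Fin d → ℤ_[p]) : Continuous fun x : X => Phi b k x := by
  have h : (fun x : X => Phi b k x) = fun x => ∑ i ∈ Finset.range p, b.σ (i • k) x := by
    funext x; rw [Phi_apply]
  rw [h]
  exact continuous_finsetSum _ fun i _ => cont_σ b _

variable [CompactSpace X] [T2Space X]

lemma closed_range (A : AddMonoid.End X) (hA : Continuous fun x : X => A x) :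
    IsClosed ((AddMonoidHom.range A : AddSubgroup X) : Set X) := by
  have h1 : ((AddMonoidHom.range A : AddSubgroup X) : Set X) = Set.range fun x : X => A x := by
    ext x; rfl
  rw [h1]
  exact (isCompact_range hA).isClosed

lemma closed_Sum2 (A C : AddMonoid.End X) (hA : Continuous fun x : X => A x)
    (hC : Continuous fun x : X => C x) : IsClosed ((Sum2 A C : AddSubgroup X) : Set X) := by
  have h1 : ((Sum2 A C : AddSubgroup X) : Set X) =
      Set.range fun z : X × X => A z.1 + C z.2 := by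
    ext x
    constructor
    · intro h
      obtain ⟨y, z, h⟩ := mem_Sum2.1 h
      exact ⟨⟨y, z⟩, h.symm⟩
    · rintro ⟨⟨y, z⟩, h⟩
      exact mem_Sum2.2 ⟨y, z, h.symm⟩
  rw [h1]
  exact (isCompact_range ((hA.comp continuous_fst).add (hC.comp continuous_snd))).isClosed

/-- `T_{a u} X ⊆ T_u X` -/
lemma im_smul (a : ℤ_[p]) (u : Fin d → ℤ_[p]) (x : X) : ∃ y, b.T (a • u) x = b.T u y := by
  have hinv : ∀ k, ∀ y ∈ AddMonoidHom.range (b.T u), b.σ k y ∈ AddMonoidHom.range (b.T u) := by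
    rintro k _ ⟨y, rfl⟩
    exact ⟨b.σ k y, T_comm_σ_apply b u k y⟩
  have h1 : u ∈ subm b Set.univ (AddMonoidHom.range (b.T u)) (closed_rangeT b u) hinv :=
    fun z _ => ⟨z, rfl⟩
  obtain ⟨y, hy⟩ := (Submodule.smul_mem _ a h1) x trivial
  exact ⟨y, hy.symm⟩

/-- `Φ(ε f) X ⊆ Φ(f) X` for a unit `ε` -/
lemma Phi_unit (f : Fin d → ℤ_[p]) (ε : ℤ_[p]) (hε : IsUnit ε) (x : X) :
    ∃ y, Phi b (ε • f) x = Phi b f y := by
  classical
  set Y : AddSubgroup X := AddMonoidHom.range (Phi b f) with hY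
  have hYc : IsClosed (Y : Set X) := closed_range _ (cont_Phi b f)
  have hinv : ∀ k, ∀ y ∈ Y, b.σ k y ∈ Y := by
    rintro k _ ⟨y, rfl⟩
    exact ⟨b.σ k y, (σ_Phi_apply b f k y).symm⟩
  have h1 : p • f ∈ subm b Set.univ Y hYc hinv := fun z _ => by
    rw [← T_Phi_apply, T_Phi_comm_apply]
    exact ⟨_, rfl⟩
  have h2 : ∀ (a : ℤ_[p]) (z : X), b.T (a • p • f) z ∈ Y := fun a z =>
    (Submodule.smul_mem _ a h1) z trivial
  have hp := (Fact.out : p.Prime)
  have h3 : ∀ (i j : ℕ), PadicInt.toZMod ((i : ℤ_[p]) * ε) = (j : ZMod p) →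
      b.σ (i • ε • f) x - b.σ (j • f) x ∈ Y := by
    intro i j hij
    have h4 : (i : ℤ_[p]) * ε - j ∈ RingHom.ker (PadicInt.toZMod (p := p)) := by
      rw [RingHom.mem_ker, map_sub, hij, map_natCast, sub_self]
    rw [PadicInt.ker_toZMod, PadicInt.maximalIdeal_eq_span_p, Ideal.mem_span_singleton] at h4
    obtain ⟨a, ha⟩ := h4
    have h5 : i • ε • f = j • f + a • p • f := by
      rw [← Nat.cast_smul_eq_nsmul ℤ_[p] i, ← Nat.cast_smul_eq_nsmul ℤ_[p] j,
        ← Nat.cast_smul_eq_nsmul ℤ_[p] p, smul_smul, smul_smul, ← add_smul,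
        eq_add_of_sub_eq' ha, mul_comm]
    rw [h5, b.add]
    have h6 : (b.σ (j • f) * b.σ (a • p • f)) x = b.σ (j • f) (b.T (a • p • f) x + x) := by
      rw [← σ_apply]; rfl
    rw [h6, map_add, add_sub_cancel_right]
    exact hinv _ _ (h2 a x)
  let e : ℕ → ℕ := fun i => (PadicInt.toZMod ((i : ℤ_[p]) * ε) : ZMod p).val
  have hεz : PadicInt.toZMod ε ≠ 0 := (hε.map PadicInt.toZMod).ne_zero
  have he1 : ∀ i ∈ Finset.range p, e i ∈ Finset.range p := fun i _ =>
    Finset.mem_range.2 (ZMod.val_lt _)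
  have he2 : Set.InjOn e (Finset.range p : Set ℕ) := by
    intro i hi j hj hij
    have h7 := ZMod.val_injective p hij
    rw [map_mul, map_mul] at h7
    have h8 := mul_right_cancel₀ hεz h7
    rw [map_natCast, map_natCast, ZMod.natCast_eq_natCast_iff'] at h8
    rwa [Nat.mod_eq_of_lt (Finset.mem_range.1 hi), Nat.mod_eq_of_lt (Finset.mem_range.1 hj)] at h8
  have he3 : Set.SurjOn e (Finset.range p : Set ℕ) (Finset.range p : Set ℕ) :=
    Finset.surjOn_of_injOn_of_card_le e he1 he2 le_rfl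
  have h9 : ∑ i ∈ Finset.range p, b.σ (e i • f) x = ∑ i ∈ Finset.range p, b.σ (i • f) x :=
    Finset.sum_nbij e he1 he2 he3 fun _ _ => rfl
  have h10 : Phi b (ε • f) x - Phi b f x ∈ Y := by
    rw [Phi_apply, Phi_apply, ← h9, ← Finset.sum_sub_distrib]
    refine Y.sum_mem fun i _ => h3 i (e i) ?_
    rw [ZMod.natCast_val, ZMod.cast_id]
  obtain ⟨y, hy⟩ := h10
  refine ⟨y + x, ?_⟩
  rw [map_add]
  have hy' : Phi b f y = Phi b (ε • f) x - Phi b f x := hy
  rw [hy', sub_add_cancel]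

end top

end

end Pool.Agent.Helper50.FW
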