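import Pool.Agent.Helper50.FW.Gen

/-!
# Packet W7 of MP_ac806c_lc: the level of an element
-/

set_option autoImplicit false
set_option linter.unusedSectionVars false

namespace Pool.Agent.Helper50.FW

open Pool.Agent.Helper30.Full Polynomial

universe u

noncomputable section

variable {p : ℕ} [Fact p.Prime] {d : ℕ} {X : Type u} [AddCommGroup X] [TopologicalSpace X]
  [IsTopologicalAddGroup X] [CompactSpace X] [T2Space X] (b : Act p d X)

lemma cast_smul (n : ℕ) (f : Fin d → ℤ_[p]) : (p ^ n : ℕ) • f = ((p : ℤ_[p]) ^ n) • f := by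
  rw [← Nat.cast_smul_eq_nsmul ℤ_[p], Nat.cast_pow]

lemma unit_dec {a : ℤ_[p]} (ha : a ≠ 0) : ∃ ε : ℤ_[p]ˣ, a = (ε : ℤ_[p]) * (p : ℤ_[p]) ^ a.valuation :=
  ⟨_, PadicInt.unitCoeff_spec ha⟩

lemma smul_dec (f : Fin d → ℤ_[p]) {a : ℤ_[p]} (ha : a ≠ 0) : ∃ ε : ℤ_[p]ˣ,
    a • f = (ε : ℤ_[p]) • (p ^ a.valuation : ℕ) • f ∧
      (p ^ a.valuation : ℕ) • f = ((ε⁻¹ : ℤ_[p]ˣ) : ℤ_[p]) • a • f := by
  obtain ⟨ε, hε⟩ := unit_dec ha
  have h1 : a • f = (ε : ℤ_[p]) • (p ^ a.valuation : ℕ) • f := by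
    rw [cast_smul, smul_smul, ← hε]
  refine ⟨ε, h1, ?_⟩
  rw [h1, smul_smul, Units.inv_mul, one_smul]

/-- `T^a X ⊆ T^{a'} X + pX` with `a < a'` is impossible -/
lemma not_imP {g : Fin d → ℤ_[p]} (hg : ¬ Small b g) {a a' : ℕ} (haa : a < a') :
    ¬ ImP p (b.T g ^ a) (b.T g ^ a') := by
  intro h
  apply hg
  refine ⟨0, a, fun x => ?_⟩
  have key : AddMonoidHom.range (b.T g ^ a) ≤ AddMonoidHom.range (mulp p X) := by
    refine nakayama b g _ _ (closed_range _ cont_mulp) ?_ ?_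
    · rintro _ ⟨z, rfl⟩
      exact ⟨b.T g z, (map_nsmul (b.T g) p z).symm⟩
    · rintro _ ⟨x, rfl⟩
      obtain ⟨y, z, hy⟩ := h x
      refine ⟨p • z, ⟨z, rfl⟩, (b.T g ^ a) ((b.T g ^ (a' - a - 1)) y), ⟨_, rfl⟩, 0, zero_mem _, ?_⟩
      have h1 : b.T g ^ a' = b.T g * (b.T g ^ a * b.T g ^ (a' - a - 1)) := by
        rw [← pow_add, ← pow_succ']
        congr 1
        omega
      have h2 : (b.T g ^ a') y = b.T g ((b.T g ^ a) ((b.T g ^ (a' - a - 1)) y)) := by rw [h1]; rfl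
      rw [smul_zero, add_zero, ← h2, add_comm]
      exact hy
  obtain ⟨y, hy⟩ := key ⟨x, rfl⟩
  refine ⟨y, ?_⟩
  rw [pow_zero, one_smul, zero_add, pow_one]
  exact hy.symm

lemma imP_lt {g : Fin d → ℤ_[p]} (hg : ¬ Small b g) {a a' : ℕ}
    (h : ImP p (b.T g ^ a) (b.T g ^ a')) : a' ≤ a := by
  by_contra hlt
  exact not_imP b hg (not_le.1 hlt) h

lemma not_small_e0 {s : ℕ} (H : HypW2 b s) : ¬ Small b (e0 p d) := by
  rw [H.small]
  intro h
  have h3 := h ⟨0, lt_of_lt_of_le H.s_pos H.s_le⟩ H.s_pos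
  rw [e0_zero rfl] at h3
  exact one_ne_zero h3

/-- the rest `r` is small modulo `p` -/
lemma rest_imP {s m j : ℕ} (H : HypW2 b s) (hD : DomW b s m) (r : Fin d → ℤ_[p])
    (h0 : ∀ i : Fin d, (i : ℕ) = 0 → r i = 0)
    (h1 : ∀ i : Fin d, 1 ≤ (i : ℕ) → (i : ℕ) < s → (p : ℤ_[p]) ^ (m + j) ∣ r i) :
    ImP p (b.T r) (b.T (e0 p d) ^ p ^ j) := by
  classical
  have hex : ∀ i : Fin d, ∃ a : ℤ_[p], (i : ℕ) < s → r i = (p : ℤ_[p]) ^ (m + j) * a := by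
    intro i
    by_cases hi : (i : ℕ) < s
    · by_cases hi0 : (i : ℕ) = 0
      · exact ⟨0, fun _ => by rw [h0 i hi0, mul_zero]⟩
      · obtain ⟨a, ha⟩ := h1 i (by omega) hi
        exact ⟨a, fun _ => ha⟩
    · exact ⟨0, fun h => absurd h hi⟩
  choose a ha using hex
  set r1 : Fin d → ℤ_[p] := fun i => if (i : ℕ) < s then a i else 0 with hr1
  set r2 : Fin d → ℤ_[p] := fun i => if (i : ℕ) < s then 0 else r i with hr2
  have hr : r = (p ^ j : ℕ) • (p ^ m : ℕ) • r1 + r2 := by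
    funext i
    rw [cast_smul, cast_smul, smul_smul, ← pow_add, add_comm j m]
    show r i = (p : ℤ_[p]) ^ (m + j) * r1 i + r2 i
    simp only [hr1, hr2]
    split_ifs with hi
    · rw [add_zero]; exact ha i hi
    · rw [mul_zero, zero_add]
  have hsm : Small b r2 := by
    rw [H.small]
    intro i hi
    simp only [hr2]
    rw [if_pos hi]
  have hd0 : 0 < d := lt_of_lt_of_le H.s_pos H.s_le
  have hU : Unit' 0 s (e0 p d) := ⟨⟨0, hd0⟩, le_rfl, H.s_pos, by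
    rw [e0_zero rfl]
    intro h
    have := (PadicInt.prime_p (p := p)).not_unit
    exact this (isUnit_of_dvd_one h)⟩
  have hA : ImP p (b.T ((p ^ m : ℕ) • r1)) (b.T (e0 p d)) := ImP.of_im fun x => hD _ hU r1 x
  have hB : ImP p (b.T ((p ^ j : ℕ) • (p ^ m : ℕ) • r1)) (b.T (e0 p d) ^ p ^ j) :=
    (imp_ppow b j _).trans (hA.pow (T_comm b _ _) _)
  intro x
  obtain ⟨y2, hy2⟩ := H.sm2 r2 hsm x
  obtain ⟨y1, z1, hy1⟩ := hB x
  refine ⟨y1, z1 + b.σ ((p ^ j : ℕ) • (p ^ m : ℕ) • r1) (p • y2), ?_⟩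
  have h5 : b.T r x = b.T ((p ^ j : ℕ) • (p ^ m : ℕ) • r1) x +
      b.σ ((p ^ j : ℕ) • (p ^ m : ℕ) • r1) (b.T r2 x) := by
    conv_lhs => rw [hr]
    rw [T_add_apply]
  rw [h5, hy1, hy2, pow_two, mul_smul, map_nsmul, smul_add, add_assoc]

/-- elements which are very divisible -/
lemma div_imP {J : ℕ} (g r : Fin d → ℤ_[p]) (a : ℤ_[p]) (ha : (p : ℤ_[p]) ^ J ∣ a)
    (hr : ImP p (b.T r) (b.T g ^ p ^ J)) : ImP p (b.T (a • g + r)) (b.T g ^ p ^ J) := by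
  obtain ⟨c, rfl⟩ := ha
  have h1 : ImP p (b.T (((p : ℤ_[p]) ^ J * c) • g)) (b.T g ^ p ^ J) := by
    have h2 : ImP p (b.T (((p : ℤ_[p]) ^ J * c) • g)) (b.T ((p ^ J : ℕ) • g)) := by
      refine ImP.of_im fun x => ?_
      rw [mul_comm, mul_smul, ← cast_smul]
      exact im_smul b c _ x
    exact h2.trans (imp_ppow b J g)
  intro x
  obtain ⟨y1, z1, hy1⟩ := h1 x
  obtain ⟨y2, z2, hy2⟩ := hr (b.σ (((p : ℤ_[p]) ^ J * c) • g) x)
  refine ⟨y1 + y2, z1 + z2, ?_⟩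
  rw [T_add_apply, ← T_comm_σ_apply, hy1, hy2, map_add, smul_add]
  abel

/-- the level of `a g + r` -/
lemma lev_imP {J : ℕ} (g r : Fin d → ℤ_[p]) (a : ℤ_[p]) (ha : a ≠ 0) (hv : a.valuation < J)
    (hr : ImP p (b.T r) (b.T g ^ p ^ J)) :
    ImP p (b.T (a • g + r)) (b.T g ^ p ^ a.valuation) ∧
      ImP p (b.T g ^ p ^ a.valuation) (b.T (a • g + r)) := by
  obtain ⟨ε, h1, h2⟩ := smul_dec g ha
  have hle : p ^ a.valuation < p ^ J := Nat.pow_lt_pow_right (Fact.out : p.Prime).one_lt hv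
  have hA : ImP p (b.T (a • g)) (b.T g ^ p ^ a.valuation) := by
    refine ImP.trans (ImP.of_im fun x => ?_) (imp_ppow b _ g)
    rw [h1]
    exact im_smul b _ _ x
  have hB : ImP p (b.T g ^ p ^ a.valuation) (b.T (a • g)) := by
    refine (imp_ppow' b _ g).trans (ImP.of_im fun x => ?_)
    rw [h2]
    exact im_smul b _ _ x
  have hr' : ImP p (b.T r) (b.T g ^ p ^ a.valuation) := hr.trans (ImP.pow_le _ hle.le)
  refine ⟨?_, ?_⟩
  · intro x
    obtain ⟨y1, z1, hy1⟩ := hA x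
    obtain ⟨y2, z2, hy2⟩ := hr' (b.σ (a • g) x)
    refine ⟨y1 + y2, z1 + z2, ?_⟩
    rw [T_add_apply, ← T_comm_σ_apply, hy1, hy2, map_add, smul_add]
    abel
  · set v := a.valuation with hvdef
    have key : AddMonoidHom.range (b.T g ^ p ^ v) ≤ Sum2 (b.T (a • g + r)) (mulp p X) := by
      refine nakayama b g _ _ (closed_Sum2 _ _ (cont_T b _) cont_mulp) ?_ ?_
      · intro z hz
        obtain ⟨y, z', rfl⟩ := mem_Sum2.1 hz
        refine mem_Sum2.2 ⟨b.T g y, b.T g z', ?_⟩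
        rw [map_add, T_comm_apply]
        congr 1
        exact map_nsmul (b.T g) p z'
      · rintro _ ⟨x, rfl⟩
        obtain ⟨x1, x2, hx⟩ := hB x
        obtain ⟨x3, x4, hx3⟩ := hr (b.σ (a • g) x1)
        refine ⟨b.T (a • g + r) x1 + mulp p X (x2 - x4), mem_Sum2.2 ⟨_, _, rfl⟩,
          -((b.T g ^ p ^ v) ((b.T g ^ (p ^ J - p ^ v - 1)) x3)), ?_, 0, zero_mem _, ?_⟩
        · exact neg_mem ⟨_, rfl⟩
        · have e1 : b.T g ^ p ^ J = b.T g * (b.T g ^ p ^ v * b.T g ^ (p ^ J - p ^ v - 1)) := by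
            rw [← pow_add, ← pow_succ']
            congr 1
            omega
          have e2 : (b.T g ^ p ^ J) x3 = b.T g ((b.T g ^ p ^ v) ((b.T g ^ (p ^ J - p ^ v - 1)) x3)) := by
            rw [e1]; rfl
          have e3 : (b.T g ^ p ^ v) x = b.T (a • g) x1 + p • x2 := hx
          show (b.T g ^ p ^ v) x = _
          rw [map_neg, ← e2, e3, T_add_apply, ← T_comm_σ_apply, hx3, mulp_apply, smul_sub, smul_zero]
          abel
    intro x
    obtain ⟨y, z, h⟩ := mem_Sum2.1 (key ⟨x, rfl⟩)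
    exact ⟨y, z, h⟩

end

end Pool.Agent.Helper50.FW
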