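import Pool.Agent.Helper50.FW.Lev

/-!
# Packet W7 of MP_ac806c_lc: the subgroup `N = T_l X + Ψ_β(g) X`
-/

set_option autoImplicit false
set_option linter.unusedSectionVars false

namespace Pool.Agent.Helper50.FW

open Pool.Agent.Helper30.Full Polynomial

universe u

noncomputable section

variable {p : ℕ} [Fact p.Prime] {d : ℕ} {X : Type u} [AddCommGroup X] [TopologicalSpace X]
  (b : Act p d X)

/-- `N = T_l X + Ψ_β(g) X` -/
def NN (l g : Fin d → ℤ_[p]) (β : ℕ) : AddSubgroup X := Sum2 (b.T l) (Psi b g β)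

lemma Tl_mem (l g : Fin d → ℤ_[p]) (β : ℕ) (x : X) : b.T l x ∈ NN b l g β :=
  left_mem_Sum2 _ _ x

lemma Psi_mem (l g : Fin d → ℤ_[p]) (β : ℕ) (x : X) : Psi b g β x ∈ NN b l g β :=
  right_mem_Sum2 _ _ x

lemma Phi_mem (l g : Fin d → ℤ_[p]) (β : ℕ) (x : X) : Phi b ((p ^ β : ℕ) • g) x ∈ NN b l g β := by
  rw [← Psi_eq]; exact Psi_mem b l g β x

lemma inv_NN (l g : Fin d → ℤ_[p]) (β : ℕ) : ∀ k, ∀ y ∈ NN b l g β, b.σ k y ∈ NN b l g β := by
  intro k y hy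
  obtain ⟨y1, y2, rfl⟩ := mem_Sum2.1 hy
  refine mem_Sum2.2 ⟨b.σ k y1, b.σ k y2, ?_⟩
  rw [map_add, ← T_comm_σ_apply, Psi_eq, σ_Phi_apply]

lemma Phi_add (f r : Fin d → ℤ_[p]) (x : X) : Phi b (f + r) x =
    Phi b f x + ∑ i ∈ Finset.range p, b.σ (i • f) (b.T (i • r) x) := by
  rw [Phi_apply, Phi_apply, ← Finset.sum_add_distrib]
  refine Finset.sum_congr rfl fun i _ => ?_
  rw [smul_add, b.add]
  have h1 : (b.σ (i • f) * b.σ (i • r)) x = b.σ (i • f) (b.σ (i • r) x) := rfl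
  rw [h1, σ_apply b (i • r) x, map_add, add_comm]

variable [IsTopologicalAddGroup X] [CompactSpace X] [T2Space X]

lemma cont_Psi (g : Fin d → ℤ_[p]) (n : ℕ) : Continuous fun x : X => Psi b g n x := by
  rw [Psi_eq]; exact cont_Phi b _

lemma closed_NN (l g : Fin d → ℤ_[p]) (β : ℕ) : IsClosed ((NN b l g β : AddSubgroup X) : Set X) :=
  closed_Sum2 _ _ (cont_T b l) (cont_Psi b g β)

lemma smul_mem_NN (l g f : Fin d → ℤ_[p]) (β : ℕ) (a : ℤ_[p]) (x : X)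
    (h : b.T f x ∈ NN b l g β) : b.T (a • f) x ∈ NN b l g β := by
  have h1 : f ∈ subm b {x} (NN b l g β) (closed_NN b l g β) (inv_NN b l g β) := fun z hz => by
    rw [Set.mem_singleton_iff.1 hz]; exact h
  exact (Submodule.smul_mem _ a h1) x rfl

lemma nsmul_mem_NN (l g f : Fin d → ℤ_[p]) (β : ℕ) (n : ℕ) (x : X)
    (h : b.T f x ∈ NN b l g β) : b.T (n • f) x ∈ NN b l g β := by
  rw [← Nat.cast_smul_eq_nsmul ℤ_[p]]
  exact smul_mem_NN b l g f β _ x h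

/-- step (4c) -/
lemma p_mem (l g : Fin d → ℤ_[p]) (β : ℕ) (z : X) (h : b.T ((p ^ β : ℕ) • g) z ∈ NN b l g β) :
    p • z ∈ NN b l g β := by
  rw [smul_sub_Phi b ((p ^ β : ℕ) • g)]
  exact sub_mem (Phi_mem b l g β z) (AddSubgroup.sum_mem _ fun i _ => nsmul_mem_NN b l g _ β i z h)

section lev

variable (l g : Fin d → ℤ_[p]) (β : ℕ) (a : ℤ_[p]) (ha : a ≠ 0) (hv : a.valuation = β)
  (r r' : Fin d → ℤ_[p]) (hr : r = p • r') (hr' : ∀ x, b.T r' x ∈ NN b l g β)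

include hr hr' in
lemma r_mem (i : ℕ) (x : X) : b.T (i • r) x ∈ NN b l g β := by
  rw [hr, smul_smul]
  exact nsmul_mem_NN b l g r' β _ x (hr' x)

include ha hv hr hr' in
/-- step (4b), first half -/
lemma Phi_k_mem (x : X) : Phi b (a • g + r) x ∈ NN b l g β := by
  rw [Phi_add]
  refine add_mem ?_ (AddSubgroup.sum_mem _ fun i _ => inv_NN b l g β _ _
    (r_mem b l g β r r' hr hr' i x))
  obtain ⟨ε, h1, -⟩ := smul_dec g ha
  rw [h1, hv]
  obtain ⟨y, hy⟩ := Phi_unit b ((p ^ β : ℕ) • g) ε ε.isUnit x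
  rw [hy]
  exact Phi_mem b l g β y

include ha hv hr hr' in
/-- step (4b), second half -/
lemma NN_le : NN b l g β ≤ Sum2 (Phi b (a • g + r)) (b.T l) := by
  have hp := (Fact.out : p.Prime)
  set k := a • g + r with hk
  set Z : AddSubgroup X := Sum2 (Phi b k) (b.T l) with hZ
  set Y : AddSubgroup X := AddMonoidHom.range (Psi b g β) with hY
  have hYinv : ∀ f, ∀ y ∈ Y, b.σ f y ∈ Y := by
    rintro f _ ⟨y, rfl⟩
    have e0 := (σ_Phi_apply b ((p ^ β : ℕ) • g) f y).symm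
    rw [← Psi_eq] at e0
    exact ⟨b.σ f y, e0⟩
  have hZinv : ∀ f, ∀ y ∈ Z, b.σ f y ∈ Z := by
    intro f y hy
    obtain ⟨y1, y2, rfl⟩ := mem_Sum2.1 hy
    refine mem_Sum2.2 ⟨b.σ f y1, b.σ f y2, ?_⟩
    rw [map_add, ← T_comm_σ_apply, σ_Phi_apply]
  have hZl : ∀ x, b.T l x ∈ Z := fun x => right_mem_Sum2 _ _ x
  have hLinv : ∀ f, ∀ y ∈ AddMonoidHom.range (b.T l), b.σ f y ∈ AddMonoidHom.range (b.T l) := by
    rintro f _ ⟨y, rfl⟩
    exact ⟨b.σ f y, T_comm_σ_apply b l f y⟩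
  have hLZ : ∀ y ∈ AddMonoidHom.range (b.T l), y ∈ Z := by
    rintro _ ⟨y, rfl⟩
    exact hZl y
  -- the auxiliary subgroup
  let W : AddSubgroup X := Z ⊔ (Y.map (b.T r') ⊔ Y.map (mulp p X))
  have hZW : ∀ z ∈ Z, z ∈ W := fun z hz => AddSubgroup.mem_sup_left hz
  have hW1 : ∀ y ∈ Y, b.T r' y ∈ W := fun y hy =>
    AddSubgroup.mem_sup_right (AddSubgroup.mem_sup_left ⟨y, hy, rfl⟩)
  have hW2 : ∀ y ∈ Y, p • y ∈ W := fun y hy =>
    AddSubgroup.mem_sup_right (AddSubgroup.mem_sup_right ⟨y, hy, rfl⟩)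
  have hWm : ∀ x ∈ W, ∃ z ∈ Z, ∃ y1 ∈ Y, ∃ y2 ∈ Y, x = z + b.T r' y1 + p • y2 := by
    intro x hx
    obtain ⟨z, hz, q, hq, rfl⟩ := AddSubgroup.mem_sup.1 hx
    obtain ⟨_, ⟨y1, hy1, rfl⟩, _, ⟨y2, hy2, rfl⟩, rfl⟩ := AddSubgroup.mem_sup.1 hq
    exact ⟨z, hz, y1, hy1, y2, hy2, (add_assoc _ _ _).symm⟩
  have hWinv : ∀ f, ∀ x ∈ W, b.σ f x ∈ W := by
    intro f x hx
    obtain ⟨z, hz, y1, hy1, y2, hy2, rfl⟩ := hWm x hx
    rw [map_add, map_add, ← T_comm_σ_apply, map_nsmul]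
    exact add_mem (add_mem (hZW _ (hZinv f z hz)) (hW1 _ (hYinv f y1 hy1)))
      (hW2 _ (hYinv f y2 hy2))
  have hrW : ∀ x, b.T r x ∈ W := by
    intro x
    obtain ⟨P, hP⟩ := T_ppow b 1 r'
    obtain ⟨x', z', hx'⟩ := mem_Sum2.1 (hr' x)
    have hy' : Psi b g β z' ∈ Y := ⟨z', rfl⟩
    have hl' : b.T l x' ∈ AddMonoidHom.range (b.T l) := ⟨x', rfl⟩
    have hTY : ∀ y ∈ Y, b.T r' y ∈ Y := T_smul_mem b Y hYinv r'
    have hTL : ∀ y ∈ AddMonoidHom.range (b.T l), b.T r' y ∈ AddMonoidHom.range (b.T l) :=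
      T_smul_mem b _ hLinv r'
    have e1 : b.T r x = (b.T r' ^ p) x + p • (b.T r' * aeval (b.T r') P) x := by
      rw [hr]
      rw [pow_one] at hP
      rw [hP]; rfl
    have e2 : (b.T r' ^ p) x = (b.T r' ^ (p - 1)) (b.T r' x) := by
      have : b.T r' ^ p = b.T r' ^ (p - 1) * b.T r' := by
        rw [← pow_succ]
        congr 1
        have := hp.one_lt
        omega
      rw [this]; rfl
    have e3 : (b.T r' * aeval (b.T r') P) x = (aeval (b.T r') P) (b.T r' x) := by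
      have hc : Commute (b.T r') (aeval (b.T r') P) := by
        have h1 : b.T r' = aeval (b.T r') (Polynomial.X : ℤ[X]) := by rw [aeval_X]
        conv_lhs => rw [h1]
        unfold Commute SemiconjBy
        rw [← map_mul, ← map_mul, mul_comm]
      rw [hc.eq]; rfl
    rw [e1, e2, e3, hx', map_add, map_add, smul_add]
    refine add_mem (add_mem ?_ ?_) (add_mem ?_ ?_)
    · exact hZW _ (hLZ _ (Tpow_mem b _ r' hTL _ _ hl'))
    · have e4 : (b.T r' ^ (p - 1)) (Psi b g β z') = b.T r' ((b.T r' ^ (p - 2)) (Psi b g β z')) := by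
        have : b.T r' ^ (p - 1) = b.T r' * b.T r' ^ (p - 2) := by
          rw [← pow_succ']
          congr 1
          have := hp.two_le
          omega
        rw [this]; rfl
      rw [e4]
      exact hW1 _ (Tpow_mem b Y r' hTY _ _ hy')
    · exact hZW _ (nsmul_mem (hLZ _ (aeval_mem b _ r' hTL P _ hl')) _)
    · exact hW2 _ (aeval_mem b Y r' hTY P _ hy')
  have hirW : ∀ (i : ℕ) x, b.T (i • r) x ∈ W := by
    intro i
    induction i with
    | zero => intro x; rw [zero_smul, T_zero]; exact zero_mem _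
    | succ i ih =>
      intro x
      rw [succ_nsmul, T_add_apply]
      exact add_mem (ih x) (hWinv _ _ (hrW x))
  have key : Y ≤ Z := by
    refine nakayama b r' Y Z (closed_Sum2 _ _ (cont_Phi b k) (cont_T b l))
      (T_smul_mem b Z hZinv r') ?_
    rintro _ ⟨x, rfl⟩
    apply hWm
    obtain ⟨ε, -, h2⟩ := smul_dec g ha
    rw [hv] at h2
    show Psi b g β x ∈ W
    rw [Psi_eq, h2]
    obtain ⟨x1, hx1⟩ := Phi_unit b (a • g) ((ε⁻¹ : ℤ_[p]ˣ) : ℤ_[p]) (ε⁻¹).isUnit x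
    rw [hx1]
    have e5 : Phi b (a • g) x1 = Phi b k x1 -
        ∑ i ∈ Finset.range p, b.σ (i • a • g) (b.T (i • r) x1) := by
      rw [hk, Phi_add, add_sub_cancel_right]
    rw [e5]
    exact sub_mem (hZW _ (left_mem_Sum2 _ _ x1))
      (AddSubgroup.sum_mem _ fun i _ => hWinv _ _ (hirW i x1))
  intro x hx
  obtain ⟨y1, y2, rfl⟩ := mem_Sum2.1 hx
  exact add_mem (hZl y1) (key ⟨y2, rfl⟩)

include ha hv hr hr' in
lemma ker_k (x : X) (hx : b.T (a • g + r) x = 0) : p • x ∈ NN b l g β := by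
  apply p_mem
  obtain ⟨ε, -, h2⟩ := smul_dec g ha
  rw [← hv, h2, hv]
  apply smul_mem_NN
  rw [T_add_apply] at hx
  rw [eq_neg_of_add_eq_zero_left hx]
  refine neg_mem (inv_NN b l g β _ _ ?_)
  have := r_mem b l g β r r' hr hr' 1 x
  rwa [one_smul] at this

include ha hv hr hr' in
lemma DD_of_mem (x : X) (hx : x ∈ NN b l g β) : DD b l (a • g + r) x := by
  obtain ⟨y, z, h⟩ := mem_Sum2.1 (NN_le b l g β a ha hv r r' hr hr' hx)
  exact ⟨_, z, y, h, T_Phi_apply b _ y⟩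

include ha hv hr hr' in
lemma mem_of_DD (x : X) (hx : DD b l (a • g + r) x) : p • x ∈ NN b l g β := by
  obtain ⟨x', x'', z, rfl, h⟩ := hx
  rw [smul_add]
  refine add_mem ?_ (nsmul_mem (Tl_mem b l g β x'') _)
  have h1 : b.T (a • g + r) (x' - Phi b (a • g + r) z) = 0 := by
    rw [map_sub, T_Phi_apply, h, sub_self]
  have h2 := ker_k b l g β a ha hv r r' hr hr' _ h1
  have h3 : p • x' = p • (x' - Phi b (a • g + r) z) + p • Phi b (a • g + r) z := by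
    rw [← smul_add, sub_add_cancel]
  rw [h3]
  exact add_mem h2 (nsmul_mem (Phi_k_mem b l g β a ha hv r r' hr hr' z) _)

end lev

/-- Chinese remainder theorem on the window `[B, B+w]` -/
lemma crt (l g : Fin d → ℤ_[p]) (B w : ℕ) : ∃ μ : ℕ → ℤ[X], ∀ (c : ℕ → X) (β : ℕ), B ≤ β →
    β ≤ B + w → (∑ β' ∈ Finset.Icc B (B + w), (aeval (b.σ g) (μ β')) (c β')) - p ^ w • c β ∈
      NN b l g β := by
  classical
  have hex : ∀ β : ℕ, ∃ μ : ℤ[X], β ∈ Finset.Icc B (B + w) →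
      (Pool.Agent.Helper85.ProP.Ps p β ∣ μ - (p : ℤ[X]) ^ w ∧
        ∀ m ∈ (Finset.Icc B (B + w)).erase β, Pool.Agent.Helper85.ProP.Ps p m ∣ μ) := by
    intro β
    by_cases hβ : β ∈ Finset.Icc B (B + w)
    · obtain ⟨μ, h1, h2⟩ := Pool.Agent.Helper85.ProP.ps_idem (p := p)
        ((Finset.Icc B (B + w)).erase β) β (by simp)
      have hc : ((Finset.Icc B (B + w)).erase β).card = w := by
        rw [Finset.card_erase_of_mem hβ, Nat.card_Icc]; omega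
      rw [hc] at h1
      exact ⟨μ, fun _ => ⟨h1, h2⟩⟩
    · exact ⟨0, fun h => absurd h hβ⟩
  choose μ hμ using hex
  refine ⟨μ, fun c β h1 h2 => ?_⟩
  have hβ : β ∈ Finset.Icc B (B + w) := Finset.mem_Icc.2 ⟨h1, h2⟩
  rw [← Finset.add_sum_erase _ _ hβ, add_sub_right_comm]
  refine add_mem ?_ (AddSubgroup.sum_mem _ fun β' hβ' => ?_)
  · obtain ⟨q, hq⟩ := (hμ β hβ).1
    have e1 : μ β = (p : ℤ[X]) ^ w + Pool.Agent.Helper85.ProP.Ps p β * q := by
      rw [← hq]; ring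
    have e2 : (aeval (b.σ g) (μ β)) (c β) = p ^ w • c β +
        Psi b g β ((aeval (b.σ g) q) (c β)) := by
      rw [e1, map_add, map_mul, aeval_Ps, map_pow, map_natCast]
      have e3 : ((p : AddMonoid.End X) ^ w) (c β) = p ^ w • c β := by
        rw [← Nat.cast_pow]
        exact AddMonoid.End.natCast_apply _ _
      show ((p : AddMonoid.End X) ^ w) (c β) + _ = _
      rw [e3]; rfl
    rw [e2, add_sub_cancel_left]
    exact Psi_mem b l g β _
  · obtain ⟨hne, hβ'm⟩ := Finset.mem_erase.1 hβ'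
    obtain ⟨q, hq⟩ := (hμ β' hβ'm).2 β (Finset.mem_erase.2 ⟨hne.symm, hβ⟩)
    have e2 : (aeval (b.σ g) (μ β')) (c β') = Psi b g β ((aeval (b.σ g) q) (c β')) := by
      rw [hq, map_mul, aeval_Ps]; rfl
    rw [e2]
    exact Psi_mem b l g β _

end

end Pool.Agent.Helper50.FW
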